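import Pool.Agent.helper24.SK.Spec
import Pool.Agent.helper92.GD.BV4

/-!
# MP_5628fe, row sk:SCK: characters of small conductor modulo M
-/

set_option autoImplicit false

namespace Pool.Agent.SK

open Finset ArithmeticFunction MeasureTheory
open Pool.Agent.CH (nit DPb Win Tset ph)
open Pool.Agent.EC (tri vN fN XN TL AdT)
open Pool.Agent.helper85.BVP (tau)
open GD (ks)

open Classical in
/-- reduction to the single characters -/
private theorem SCK_red (J : Finset ℕ) (f : ℕ → ℝ) (S : ℝ) (m c R : ℕ) (hm : 0 < m)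
    (hc : Nat.Coprime c m) (hR : 1 ≤ R) (ε : ℝ)
    (hε : ∀ χ : DirichletCharacter ℂ m, χ.conductor ≤ R →
      (χ = 1 → ‖∑ n ∈ J, (f n : ℂ) * χ n - (S : ℂ)‖ ≤ ε) ∧
      (χ ≠ 1 → ‖∑ n ∈ J, (f n : ℂ) * χ n - 0‖ ≤ ε)) :
    |∑ n ∈ J, f n * ks R m c n - (1 / (Nat.totient m : ℝ)) * S| ≤
      (1 / (Nat.totient m : ℝ)) * ((R * R : ℕ) * ε) := by
  have : NeZero m := ⟨hm.ne'⟩
  have hφ : 0 < Nat.totient m := Nat.totient_pos.2 hm
  have hφ0 : (0 : ℝ) < Nat.totient m := by exact_mod_cast hφ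
  set F := (univ : Finset (DirichletCharacter ℂ m)).filter fun χ => χ.conductor ≤ R with hF
  have hε0 : 0 ≤ ε := by
    refine (norm_nonneg _).trans ((hε 1 ?_).1 rfl)
    rw [DirichletCharacter.eq_one_iff_conductor_eq_one.1 rfl]
    exact hR
  have h1F : (1 : DirichletCharacter ℂ m) ∈ F := by
    rw [hF, mem_filter]
    refine ⟨mem_univ _, ?_⟩
    rw [DirichletCharacter.eq_one_iff_conductor_eq_one.1 rfl]
    exact hR
  have key : ∑ n ∈ J, f n * ks R m c n - (1 / (Nat.totient m : ℝ)) * S =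
      (1 / (Nat.totient m : ℝ)) * (∑ χ ∈ F, (starRingEnd ℂ) (χ c) *
        (∑ n ∈ J, (f n : ℂ) * χ n - (if χ = 1 then (S : ℂ) else 0))).re := by
    have e1 : ∑ χ ∈ F, (starRingEnd ℂ) (χ c) * (if χ = 1 then (S : ℂ) else 0) = S := by
      rw [sum_eq_single_of_mem 1 h1F (fun χ _ hχ => by rw [if_neg hχ, mul_zero]), if_pos rfl,
        MulChar.one_apply ((ZMod.isUnit_iff_coprime c m).2 hc), map_one, one_mul]
    have e2 : ∑ n ∈ J, f n * ks R m c n =
        (1 / (Nat.totient m : ℝ)) * (∑ χ ∈ F, (starRingEnd ℂ) (χ c) *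
          ∑ n ∈ J, (f n : ℂ) * χ n).re := by
      have e3 : ∑ χ ∈ F, (starRingEnd ℂ) (χ c) * ∑ n ∈ J, (f n : ℂ) * χ n =
          ∑ n ∈ J, (f n : ℂ) * ∑ χ ∈ F, (starRingEnd ℂ) (χ c) * χ n := by
        simp_rw [mul_sum]
        rw [sum_comm]
        refine sum_congr rfl fun n _ => sum_congr rfl fun χ _ => ?_
        ring
      rw [e3, Complex.re_sum, mul_sum]
      refine sum_congr rfl fun n _ => ?_
      rw [Complex.re_ofReal_mul]
      unfold ks
      ring
    simp_rw [mul_sub]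
    rw [sum_sub_distrib, e1, Complex.sub_re, mul_sub, e2, Complex.ofReal_re]
  rw [key, abs_mul, abs_of_nonneg (by positivity : 0 ≤ 1 / (Nat.totient m : ℝ))]
  refine mul_le_mul_of_nonneg_left ?_ (by positivity)
  refine (Complex.abs_re_le_norm _).trans ((norm_sum_le _ _).trans ?_)
  calc ∑ χ ∈ F, ‖(starRingEnd ℂ) (χ c) *
        (∑ n ∈ J, (f n : ℂ) * χ n - (if χ = 1 then (S : ℂ) else 0))‖
      ≤ ∑ χ ∈ F, ε := by
        apply sum_le_sum
        intro χ hχ
        rw [norm_mul, RCLike.norm_conj]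
        have h1 := DirichletCharacter.norm_le_one χ (c : ZMod m)
        have h2 := hε χ (mem_filter.1 hχ).2
        by_cases hχ1 : χ = 1
        · rw [if_pos hχ1]
          exact (mul_le_mul h1 (h2.1 hχ1) (norm_nonneg _) zero_le_one).trans (le_of_eq (one_mul ε))
        · rw [if_neg hχ1]
          exact (mul_le_mul h1 (h2.2 hχ1) (norm_nonneg _) zero_le_one).trans (le_of_eq (one_mul ε))
    _ = (#F : ℝ) * ε := by rw [sum_const, nsmul_eq_mul]
    _ ≤ ((R * R : ℕ) : ℝ) * ε := by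
        apply mul_le_mul_of_nonneg_right _ hε0
        exact_mod_cast GD.BV4_card m R hm

/-- passing to the primitive character -/
private theorem SCK_prim (J : Finset ℕ) (m : ℕ) (f : ℕ → ℝ) (hf : ∀ n, 0 ≤ f n)
    (χ : DirichletCharacter ℂ m) (S : ℂ) :
    ‖∑ n ∈ J, (f n : ℂ) * χ n - S‖ ≤
      ‖∑ n ∈ J, (f n : ℂ) * χ.primitiveCharacter n - S‖ +
        ∑ n ∈ J with ¬ Nat.Coprime n m, f n := by
  have h1 : ∑ n ∈ J, (f n : ℂ) * χ n =
      ∑ n ∈ J, (f n : ℂ) * χ.primitiveCharacter n -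
        ∑ n ∈ J with ¬ Nat.Coprime n m, (f n : ℂ) * χ.primitiveCharacter n := by
    rw [sum_filter, ← sum_sub_distrib]
    refine sum_congr rfl fun n _ => ?_
    by_cases hn : Nat.Coprime n m
    · have h2 := χ.primitiveCharacter_apply_of_isCoprime (a := (n : ℤ))
        (Nat.isCoprime_iff_coprime.mpr hn)
      push_cast at h2
      rw [if_neg (by simpa using hn), sub_zero, h2]
    · rw [if_pos hn, sub_self, MulChar.map_nonunit _ (fun h => hn
        ((ZMod.isUnit_iff_coprime n m).1 h)), mul_zero]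
  rw [h1, sub_right_comm]
  refine (norm_sub_le _ _).trans (add_le_add le_rfl ?_)
  refine (norm_sum_le _ _).trans (sum_le_sum fun n _ => ?_)
  rw [norm_mul, Complex.norm_real, Real.norm_of_nonneg (hf n)]
  have h2 := DirichletCharacter.norm_le_one χ.primitiveCharacter (n : ZMod χ.conductor)
  exact (mul_le_mul_of_nonneg_left h2 (hf n)).trans (le_of_eq (mul_one _))

private theorem SCK_TL {r : ℕ} (N : ℕ) (a b : Fin r → ℝ) (m : ℕ) : 0 ≤ TL N a b m := by
  unfold TL
  exact sum_nonneg fun _ _ => vonMangoldt_nonneg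

private theorem SCK_fN (N m : ℕ) : 0 ≤ fN N m := by
  unfold fN tri
  exact le_max_left _ _

theorem SCK (h1 : SCN_stmt) (h2 : GCD_stmt) (h3 : WNF_stmt) : SCK_stmt := by
  intro r a b hab A Bq
  obtain ⟨N₁, hN₁⟩ := h1 r a b hab (A + 2 * Bq + 1) Bq
  obtain ⟨N₂, hN₂⟩ := h2 r a b hab (A + 2 * Bq + 1)
  obtain ⟨N₃, hN₃⟩ := h3
  refine ⟨max N₁ (max N₂ (max N₃ 64)), ?_⟩
  intro N hN M c R hM hMN hcM hR hRB
  have h1N : N₁ ≤ N := (le_max_left _ _).trans hN
  have h2N : N₂ ≤ N := (le_max_left _ _).trans ((le_max_right _ _).trans hN)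
  have h3N : N₃ ≤ N := (le_max_left _ _).trans ((le_max_right _ _).trans ((le_max_right _ _).trans hN))
  have h64 : 64 ≤ N := (le_max_right _ _).trans ((le_max_right _ _).trans ((le_max_right _ _).trans hN))
  obtain ⟨hv, hW, _⟩ := hN₃ N h3N
  have hgcd := hN₂ N h2N M hM hMN
  set L := Real.log N with hL
  have hN0 : (0 : ℝ) < N := by exact_mod_cast (by omega : 0 < N)
  have hNR : (64 : ℝ) ≤ N := by exact_mod_cast h64
  have hL2 : 2 ≤ L := by
    rw [hL, Real.le_log_iff_exp_le hN0]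
    have h3 : Real.exp 2 < 9 := by
      have := Real.exp_one_lt_d9
      have h4 : Real.exp 2 = Real.exp 1 ^ 2 := by rw [← Real.exp_nat_mul]; norm_num
      rw [h4]
      have h5 : 0 < Real.exp 1 := Real.exp_pos 1
      nlinarith
    linarith
  have hL0 : 0 < L := by linarith
  set f : ℕ → ℝ := fun m => TL N a b m * fN N m with hf
  have hf0 : ∀ n, 0 ≤ f n := fun n => mul_nonneg (SCK_TL N a b n) (SCK_fN N n)
  set S : ℝ := ∑ m ∈ Win N, f m with hS
  set E : ℝ := (N : ℝ) ^ 2 / L ^ (A + 2 * Bq) with hE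
  have hhalf : (N : ℝ) ^ 2 / L ^ (A + 2 * Bq + 1) ≤ 1 / 2 * E := by
    rw [hE, pow_succ L (A + 2 * Bq), ← div_div]
    rw [div_le_iff₀ hL0]
    have h5 : 0 ≤ (N : ℝ) ^ 2 / L ^ (A + 2 * Bq) := by positivity
    nlinarith
  have hE0 : 0 ≤ E := by positivity
  have hnon : ∑ n ∈ Win N with ¬ Nat.Coprime n M, f n ≤ 1 / 2 * E := hgcd.trans hhalf
  have hone : ∀ χ : DirichletCharacter ℂ M, χ.conductor ≤ R →
      (χ = 1 → ‖∑ n ∈ Win N, (f n : ℂ) * χ n - (S : ℂ)‖ ≤ E) ∧
      (χ ≠ 1 → ‖∑ n ∈ Win N, (f n : ℂ) * χ n - 0‖ ≤ E) := by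
    intro χ hχ
    have : NeZero M := ⟨hM.ne'⟩
    have hcond0 : χ.conductor ≠ 0 := DirichletCharacter.conductor_ne_zero χ
    have hcB : (χ.conductor : ℝ) ≤ L ^ Bq := by
      refine le_trans ?_ hRB
      exact_mod_cast hχ
    constructor
    · intro hχ1
      refine (SCK_prim (Win N) M f hf0 χ _).trans ?_
      have hlev : χ.conductor = 1 := DirichletCharacter.eq_one_iff_conductor_eq_one.1 hχ1
      have hsub : ∀ k : ℕ, k = 1 → ∀ ψ : DirichletCharacter ℂ k, ∀ n : ℕ, ψ n = 1 := by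
        intro k hk ψ n
        subst hk
        rw [DirichletCharacter.level_one ψ, MulChar.one_apply]
        exact isUnit_of_subsingleton _
      have e : ∑ n ∈ Win N, (f n : ℂ) * χ.primitiveCharacter n - (S : ℂ) = 0 := by
        rw [hS, Complex.ofReal_sum, sub_eq_zero]
        refine sum_congr rfl fun n _ => ?_
        rw [hsub _ hlev, mul_one]
      rw [e, norm_zero]
      linarith
    · intro hχ1
      refine (SCK_prim (Win N) M f hf0 χ _).trans ?_
      have hp : χ.primitiveCharacter ≠ 1 := by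
        intro h
        apply hχ1
        have h5 := χ.changeLevel_primitiveCharacter
        rw [h, map_one] at h5
        exact h5.symm
      have g1 := hN₁ N h1N (vN N) hv χ.conductor (Nat.one_le_iff_ne_zero.2 hcond0) hcB
        χ.primitiveCharacter hp
      have e : ∑ n ∈ Win N, (f n : ℂ) * χ.primitiveCharacter n =
          ∑ m ∈ Ioc 0 (64 * N ^ 3), ((TL N a b m : ℝ) : ℂ) * χ.primitiveCharacter m *
            ((tr0 (vN N) (1 / (N : ℝ)) (Real.log m) : ℝ) : ℂ) := by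
        rw [← hW (fun m => ((TL N a b m : ℝ) : ℂ) * χ.primitiveCharacter m)]
        refine sum_congr rfl fun n _ => ?_
        rw [hf]
        push_cast
        ring
      rw [sub_zero, e]
      linarith
  have hfin := SCK_red (Win N) f S M c R hM hcM hR E hone
  refine hfin.trans ?_
  refine mul_le_mul_of_nonneg_left ?_ (by positivity)
  have h3 : ((R * R : ℕ) : ℝ) ≤ L ^ (2 * Bq) := by
    push_cast
    calc (R : ℝ) * R ≤ L ^ Bq * L ^ Bq := by gcongr
      _ = L ^ (2 * Bq) := by rw [← pow_add]; congr 1; ring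
  calc ((R * R : ℕ) : ℝ) * E ≤ L ^ (2 * Bq) * ((N : ℝ) ^ 2 / L ^ (A + 2 * Bq)) := by
        rw [hE]
        gcongr
    _ = (N : ℝ) ^ 2 / L ^ A := by rw [pow_add]; field_simp

end Pool.Agent.SK
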