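import Pool.Agent.helper24.SK.Spec

/-!
# MP_5628fe, row sk:TLB: size of TL
-/

set_option autoImplicit false

namespace Pool.Agent.SK

open Finset ArithmeticFunction MeasureTheory
open Pool.Agent.CH (nit DPb Win Tset ph)
open Pool.Agent.EC (tri vN fN XN TL AdT)
open Pool.Agent.helper85.BVP (tau)
open GD (ks)

private theorem TLB_al {r : ℕ} (a b : Fin r → ℝ) (h : Adr a b) :
    ∃ α : ℝ, 0 < α ∧ ∀ i, α ≤ a i := by
  rcases Nat.eq_zero_or_pos r with h0 | h0
  · subst h0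
    exact ⟨1, one_pos, fun i => i.elim0⟩
  · have hA : AdT a b := by
      rcases h with h | h
      · omega
      · exact h
    obtain ⟨i₀, _, hi⟩ := Finset.exists_min_image (univ : Finset (Fin r)) a ⟨⟨0, h0⟩, mem_univ _⟩
    exact ⟨a i₀, (hA.2.1 i₀).1, fun i => hi i (mem_univ _)⟩

/-- the number of large prime factors -/
private theorem TLB_card (N m : ℕ) (α : ℝ) (hα : 0 < α) (hN : 64 ≤ N) (hm : m ≤ 64 * N ^ 3) :
    (#(m.primeFactors.filter fun p : ℕ => (N : ℝ) ^ α ≤ (p : ℝ)) : ℝ) ≤ 4 / α := by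
  have hN1 : (1 : ℝ) < N := by
    have : 1 < N := by omega
    exact_mod_cast this
  have hN0 : (0 : ℝ) < N := by linarith
  rcases Nat.eq_zero_or_pos m with h0 | h0
  · subst h0
    simp
    positivity
  set S := m.primeFactors.filter fun p : ℕ => (N : ℝ) ^ α ≤ (p : ℝ) with hS
  have h1 : ((N : ℝ) ^ α) ^ (#S) ≤ ∏ p ∈ S, (p : ℝ) := by
    rw [← Finset.prod_const]
    refine Finset.prod_le_prod (fun p _ => by positivity) (fun p hp => ?_)
    exact (mem_filter.1 hp).2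
  have h2 : ∏ p ∈ S, p ≤ m := by
    refine Nat.le_of_dvd h0 (dvd_trans ?_ (Nat.prod_primeFactors_dvd m))
    exact Finset.prod_dvd_prod_of_subset _ _ _ (filter_subset _ _)
  have h3 : ∏ p ∈ S, (p : ℝ) ≤ (N : ℝ) ^ (4 : ℝ) := by
    have h4 : ∏ p ∈ S, (p : ℝ) = ((∏ p ∈ S, p : ℕ) : ℝ) := by push_cast; rfl
    rw [h4]
    have h5 : ∏ p ∈ S, p ≤ N ^ 4 := by
      calc ∏ p ∈ S, p ≤ m := h2
        _ ≤ 64 * N ^ 3 := hm
        _ ≤ N * N ^ 3 := Nat.mul_le_mul_right _ hN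
        _ = N ^ 4 := by ring
    calc ((∏ p ∈ S, p : ℕ) : ℝ) ≤ ((N ^ 4 : ℕ) : ℝ) := by exact_mod_cast h5
      _ = (N : ℝ) ^ (4 : ℝ) := by
        push_cast
        rw [← Real.rpow_natCast]
        norm_num
  have h6 : (N : ℝ) ^ (α * (#S : ℝ)) ≤ (N : ℝ) ^ (4 : ℝ) := by
    rw [Real.rpow_mul hN0.le, Real.rpow_natCast]
    exact h1.trans h3
  have h7 : α * (#S : ℝ) ≤ 4 := (Real.rpow_le_rpow_left_iff hN1).mp h6
  rw [le_div_iff₀ hα]
  linarith

theorem TLB (h1 : TLD_stmt) : TLB_stmt := by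
  intro r a b hab
  obtain ⟨α, hα, hαi⟩ := TLB_al a b hab
  refine ⟨4 * (4 / α) ^ r, 64, by positivity, ?_⟩
  intro N hN m hm
  have hNR : (64 : ℝ) ≤ N := by exact_mod_cast hN
  have hN0 : (0 : ℝ) < N := by linarith
  have hlog : 0 ≤ Real.log N := Real.log_natCast_nonneg N
  have hTL0 : 0 ≤ TL N a b m := by
    unfold TL
    exact sum_nonneg fun _ _ => vonMangoldt_nonneg
  refine ⟨hTL0, ?_⟩
  have hlm : ∀ k : ℕ, k ≤ 64 * N ^ 3 → vonMangoldt k ≤ 4 * Real.log N := by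
    intro k hk
    rcases Nat.eq_zero_or_pos k with h0 | h0
    · subst h0
      simp
      positivity
    · refine vonMangoldt_le_log.trans ?_
      have hk0 : (0 : ℝ) < k := by exact_mod_cast h0
      have h4 : (k : ℝ) ≤ (N : ℝ) ^ 4 := by
        have h5 : k ≤ N ^ 4 := by
          calc k ≤ 64 * N ^ 3 := hk
            _ ≤ N * N ^ 3 := Nat.mul_le_mul_right _ hN
            _ = N ^ 4 := by ring
        exact_mod_cast h5
      calc Real.log k ≤ Real.log ((N : ℝ) ^ 4) := Real.log_le_log hk0 h4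
        _ = 4 * Real.log N := by rw [Real.log_pow]; norm_num
  unfold TL
  refine (sum_le_card_nsmul _ _ (4 * Real.log N) ?_).trans ?_
  · intro p _
    exact hlm _ ((Nat.div_le_self _ _).trans hm)
  · rw [nsmul_eq_mul]
    have hN1 : (1 : ℝ) ≤ N := by linarith
    have hcard : ((#((Fintype.piFinset fun _ : Fin r => m.primeFactors).filter fun p =>
        (∀ i, (N : ℝ) ^ a i ≤ (p i : ℝ) ∧ (p i : ℝ) < (N : ℝ) ^ b i) ∧ ∏ i, p i ∣ m) : ℕ) : ℝ) ≤
        (4 / α) ^ r := by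
      have h5 : #((Fintype.piFinset fun _ : Fin r => m.primeFactors).filter fun p =>
          (∀ i, (N : ℝ) ^ a i ≤ (p i : ℝ) ∧ (p i : ℝ) < (N : ℝ) ^ b i) ∧ ∏ i, p i ∣ m) ≤
          (#(m.primeFactors.filter fun p : ℕ => (N : ℝ) ^ α ≤ (p : ℝ))) ^ r := by
        have h6 : #(Fintype.piFinset fun _ : Fin r =>
            (m.primeFactors.filter fun p : ℕ => (N : ℝ) ^ α ≤ (p : ℝ))) =
            (#(m.primeFactors.filter fun p : ℕ => (N : ℝ) ^ α ≤ (p : ℝ))) ^ r := by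
          rw [Fintype.card_piFinset]
          simp
        rw [← h6]
        apply card_le_card
        intro p hp
        rw [mem_filter, Fintype.mem_piFinset] at hp
        rw [Fintype.mem_piFinset]
        intro i
        rw [mem_filter]
        refine ⟨hp.1 i, ?_⟩
        exact (Real.rpow_le_rpow_of_exponent_le hN1 (hαi i)).trans (hp.2.1 i).1
      calc ((#((Fintype.piFinset fun _ : Fin r => m.primeFactors).filter fun p =>
          (∀ i, (N : ℝ) ^ a i ≤ (p i : ℝ) ∧ (p i : ℝ) < (N : ℝ) ^ b i) ∧ ∏ i, p i ∣ m) : ℕ) : ℝ)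
          ≤ (((#(m.primeFactors.filter fun p : ℕ => (N : ℝ) ^ α ≤ (p : ℝ))) ^ r : ℕ) : ℝ) := by
            exact_mod_cast h5
        _ ≤ (4 / α) ^ r := by
            push_cast
            exact pow_le_pow_left₀ (Nat.cast_nonneg _) (TLB_card N m α hα hN hm) r
    have h7 : 0 ≤ 4 * Real.log N := by positivity
    calc _ ≤ (4 / α) ^ r * (4 * Real.log N) := mul_le_mul_of_nonneg_right hcard h7
      _ = 4 * (4 / α) ^ r * Real.log N := by ring

end Pool.Agent.SK
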